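import Mathlib
import Pool.Agent.H.MP_87b2fe_co.A

set_option autoImplicit false

namespace Pool.Agent.Results.MP_87b2fe_co.DiffPos

open PowerSeries

/-- The first difference of an integer sequence: keeps the 0-th term, and `q n - q (n-1)` after. -/
def delta (q : ℕ → ℤ) : ℕ → ℤ
  | 0 => q 0
  | (n + 1) => q (n + 1) - q n

lemma mk_delta (t : ℕ) (q : ℕ → ℤ) :
    (PowerSeries.mk (fun m => ((delta^[t] q m : ℤ) : ℝ)) : ℝ⟦X⟧) =
      (1 - X) ^ t * PowerSeries.mk (fun m => (q m : ℝ)) := by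
  induction t with
  | zero => simp
  | succ t ih =>
    rw [pow_succ', mul_assoc, ← ih, Function.iterate_succ_apply']
    ext n
    rcases n with _ | n
    · simp [delta]
    · simp [delta, sub_mul, coeff_succ_X_mul]

theorem result (r : ℕ) (hr : 1 ≤ r) (P : Type) [PartialOrder P] [OrderBot P]
    [LocallyFiniteOrder P] (ρ : P → ℕ) (h0 : ρ ⊥ = 0)
    (hcov : ∀ x y : P, x ⋖ y → ρ y = ρ x + 1)
    (hfin : ∀ n : ℕ, {x : P | ρ x = n}.Finite)
    (hD1 : ∀ x y : P, x ≠ y →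
      {z : P | z ⋖ x ∧ z ⋖ y}.ncard = {z : P | x ⋖ z ∧ y ⋖ z}.ncard)
    (hD2 : ∀ x : P, {z : P | x ⋖ z}.ncard = {z : P | z ⋖ x}.ncard + r)
    (n : ℕ) (hn : 2 ≤ n) :
    0 < delta^[r] (fun m => ({x : P | ρ x = m}.ncard : ℤ)) n := by
  have h := H.MP_87b2fe_co.main ρ hfin hcov r hr ⊥ h0 hD2 hD1 n hn
  have h2 := mk_delta r (fun m => ({x : P | ρ x = m}.ncard : ℤ))
  simp only [Int.cast_natCast] at h2
  rw [← h2, coeff_mk] at h
  exact_mod_cast h

end Pool.Agent.Results.MP_87b2fe_co.DiffPos
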